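import Pool.Agent.R272.LogEll.Main

set_option autoImplicit false

namespace Pool.Agent.Results.MP_e7e597_an.NoEllipticW

open Pool.Agent.R272.LogEll

/-- There is no twice continuously differentiable `W : [0, ∞) → ℝ` such that
`F ↦ W(‖dev₃ log U‖²)` is Legendre–Hadamard elliptic on all of `GL⁺(3)`. -/
theorem result :
    ¬ ∃ W : ℝ → ℝ, ContDiffOn ℝ 2 W (Set.Ici 0) ∧ LHElliptic fun F => W (K F) :=
  no_W

end Pool.Agent.Results.MP_e7e597_an.NoEllipticW
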